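import Mathlib
import Pool.Agent.H63.Star.Assemble
import Pool.Agent.H66.EX.Exist

open MeasureTheory Set Filter Topology
open scoped Real ENNReal NNReal ContDiff

namespace Pool.Agent.H63.SLBOld

/-- `φ` is a test function on `Ω`: smooth, with compact support contained in `Ω`. -/
def IsTestFn {N : ℕ} (Ω : Set (EuclideanSpace ℝ (Fin N))) (φ : EuclideanSpace ℝ (Fin N) → ℝ) : Prop :=
  ContDiff ℝ ∞ φ ∧ HasCompactSupport φ ∧ tsupport φ ⊆ Ω

/-- First eigenvalue of the Dirichlet Laplacian on `Ω`: the infimum of `∫ |∇φ|²` over test functions on `Ω` with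
`∫ φ² = 1` (equivalently, the minimum over `H¹₀(Ω)`, the closure of the test functions). -/
noncomputable def firstEigenvalue {N : ℕ} (Ω : Set (EuclideanSpace ℝ (Fin N))) : ℝ :=
  sInf {r : ℝ | ∃ φ : EuclideanSpace ℝ (Fin N) → ℝ, IsTestFn Ω φ ∧ ∫ x, (φ x) ^ 2 = 1 ∧
    r = ∫ x, ‖fderiv ℝ φ x‖ ^ 2}

/-- `Ω` solves `min { λ₁(Ω) : Ω ⊆ D open, |Ω| = A }`. -/
structure Minimizes {N : ℕ} (D : Set (EuclideanSpace ℝ (Fin N))) (A : ℝ) (Ω : Set (EuclideanSpace ℝ (Fin N))) : Prop where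
  isOpen : IsOpen Ω
  subset : Ω ⊆ D
  volume_eq : volume Ω = ENNReal.ofReal A
  le : ∀ Ω' : Set (EuclideanSpace ℝ (Fin N)), IsOpen Ω' → Ω' ⊆ D → volume Ω' = ENNReal.ofReal A →
    firstEigenvalue Ω ≤ firstEigenvalue Ω'

/-- `S` is starshaped with respect to one of its points. -/
def IsStarShaped {N : ℕ} (S : Set (EuclideanSpace ℝ (Fin N))) : Prop :=
  ∃ x₀ ∈ S, ∀ x ∈ S, segment ℝ x₀ x ⊆ S

open Pool.Agent.H63.Star

lemma firstEigenvalue_eq {N : ℕ} (Ω : Set (EuclideanSpace ℝ (Fin N))) :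
    firstEigenvalue Ω = Pool.Agent.H66.EX.lam1 Ω := by
  unfold firstEigenvalue Pool.Agent.H66.EX.lam1
  congr 1
  ext r
  constructor
  · rintro ⟨φ, ⟨h1, h2, h3⟩, h4, h5⟩
    exact ⟨φ, ⟨h1, h2, h3⟩, h4, h5⟩
  · rintro ⟨φ, ⟨h1, h2, h3⟩, h4, h5⟩
    exact ⟨φ, ⟨h1, h2, h3⟩, h4, h5⟩

lemma isOpen_box3 : IsOpen box3 := isOpen_boxX.preimage toX.continuous

lemma isBounded_box3 : Bornology.IsBounded box3 := by
  have h : box3 = toX.symm '' boxX := by
    ext x
    constructor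
    · intro hx; exact ⟨toX x, hx, by simp⟩
    · rintro ⟨y, hy, rfl⟩; simpa [box3] using hy
  rw [h]
  exact (toX.symm : X →L[ℝ] EuclideanSpace ℝ (Fin 3)).lipschitz.isBounded_image isBounded_boxX

lemma isStarShaped_box3 : IsStarShaped box3 := by
  refine ⟨toX.symm q0, by simpa [box3] using q0_mem, ?_⟩
  apply starConvex_iff_segment_subset.1
  have h1 : StarConvex ℝ (((toX : EuclideanSpace ℝ (Fin 3) ≃L[ℝ] X) : EuclideanSpace ℝ (Fin 3) →ₗ[ℝ] X) (toX.symm q0)) boxX := by
    have e : ((toX : EuclideanSpace ℝ (Fin 3) ≃L[ℝ] X) : EuclideanSpace ℝ (Fin 3) →ₗ[ℝ] X) (toX.symm q0) = q0 := by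
      simp
    rw [e]
    exact starConvex_boxX
  exact h1.linear_preimage _

lemma lt_volume_box3 : ENNReal.ofReal pA < volume box3 := by
  have h1 : volume box3 = muLP boxLP := by
    have h2 : boxX = Phi '' boxLP := by
      ext x
      constructor
      · intro hx
        have := Phi_Psi (boxX_subset_slit hx)
        refine ⟨Psi x, (Phi_mem_boxX this.1).1 (by rw [this.2]; exact hx), this.2⟩
      · rintro ⟨y, hy, rfl⟩
        exact (Phi_mem_boxX (boxLP_subset_strip hy)).2 hy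
    unfold box3
    rw [volume_preimage_toX, h2, volume_image_Phi isOpen_boxLP boxLP_subset_strip]
  rw [h1]
  exact lt_muLP_boxLP

/-- lower bound for sets that are almost starshaped -/
lemma lower {Ω : Set E3} (hΩo : IsOpen Ω) (hΩ : Ω ⊆ box3) (hpos : volume Ω ≠ 0) (hvol : volume Ω ≤ ENNReal.ofReal (2 * pA))
    {S : Set E3} (hS : IsOpen S) (hst : IsStarShaped S) (hae : S =ᵐ[volume] Ω) :
    (π / (2 * ph)) ^ 2 + (100 * π ^ 2 + 3 / 100) ≤ firstEigenvalue Ω := by
  obtain ⟨x₀, hx₀, hx⟩ := hst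
  have hst' : StarConvex ℝ x₀ S := starConvex_iff_segment_subset.2 hx
  have e : ∀ T : Set E3, toX ⁻¹' (toX '' T) = T := fun T => preimage_image_eq T toX.injective
  have hΩ' : toX '' Ω ⊆ boxX := by
    rintro _ ⟨y, hy, rfl⟩; exact hΩ hy
  have hS' : IsOpen (toX '' S) := toX.toHomeomorph.isOpenMap S hS
  have hst2 : StarConvex ℝ (toX x₀) (toX '' S) := hst'.linear_image (toX : E3 →ₗ[ℝ] X)
  have hae' : (toX '' S : Set X) =ᵐ[volume] (toX '' Ω : Set X) := by
    have h : MeasurePreserving toX.toHomeomorph.toMeasurableEquiv volume volume := toX_mp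
    have h2 : MeasurePreserving toX.symm volume volume := h.symm
    have h3 : ∀ T : Set E3, (toX '' T : Set X) = toX.symm ⁻¹' T := fun T => by
      ext x
      constructor
      · rintro ⟨y, hy, rfl⟩; simpa using hy
      · intro hx; exact ⟨toX.symm x, hx, by simp⟩
    rw [h3, h3]
    exact h2.quasiMeasurePreserving.preimage_ae_eq hae
  have hne : Ω.Nonempty := nonempty_of_measure_ne_zero hpos
  rw [firstEigenvalue_eq]
  unfold Pool.Agent.H66.EX.lam1
  apply le_csInf
  · obtain ⟨φ, hφ, _, x, hx⟩ := Pool.Agent.H66.EX.exists_test hΩo hne one_pos (by norm_num : 0 < 3)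
    have hpos : 0 < ∫ x, (φ x) ^ 2 := by
      have h3 := (hφ.continuous.pow 2).integral_pos_of_hasCompactSupport_nonneg_nonzero
        (μ := volume) (hφ.cpt.mono (fun x hx => by
          simp only [Function.mem_support] at hx ⊢
          intro h0; exact hx (by simp [h0]))) (fun y => by
            show 0 ≤ (φ y) ^ 2
            positivity) (x := x) (by
            show (φ x) ^ 2 ≠ 0
            positivity)
      exact h3
    set Q := ∫ x, (φ x) ^ 2 with hQ
    refine ⟨_, fun x => (Real.sqrt Q)⁻¹ * φ x, hφ.smul _, ?_, rfl⟩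
    simp only [mul_pow]
    rw [integral_const_mul, ← hQ, inv_pow, Real.sq_sqrt hpos.le, inv_mul_cancel₀ hpos.ne']
  · rintro r ⟨φ, hφ, hφ1, rfl⟩
    have hc : ContDiff ℝ ∞ (φ ∘ toX.symm) := hφ.smooth.comp toX.symm.contDiff
    have hcs : HasCompactSupport (φ ∘ toX.symm) := hφ.cpt.comp_homeomorph toX.symm.toHomeomorph
    have hct : tsupport (φ ∘ toX.symm) ⊆ toX '' Ω := by
      intro x hx
      have := hφ.supp (tsupport_comp_subset_preimage φ toX.symm.continuous hx)
      exact ⟨toX.symm x, this, by simp⟩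
    have key := gapX hΩ' hS' hst2 hae' (by rw [← volume_preimage_toX, e]; exact hpos)
      (by rw [← volume_preimage_toX, e]; exact hvol) (hc.of_le (by simp)) hcs hct
    obtain ⟨k1, k2⟩ := energy_toX hφ.smooth
    change _ * massX (φ ∘ toX.symm) ≤ enX (φ ∘ toX.symm) at key
    rw [← k1, ← k2, ← ofReal_integral_eq_lintegral_ofReal hφ.integrable_sq (Eventually.of_forall fun x => sq_nonneg _),
      ← ofReal_integral_eq_lintegral_ofReal hφ.integrable_energy (Eventually.of_forall fun x => sq_nonneg _), hφ1,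
      ENNReal.ofReal_one, mul_one] at key
    exact (ENNReal.ofReal_le_ofReal_iff (integral_nonneg fun x => sq_nonneg _)).1 key

/-- the competitor -/
def Om0 : Set E3 := toX ⁻¹' (Phi '' U0)

lemma isOpen_Om0 : IsOpen Om0 :=
  (isOpen_image_Phi isOpen_U0 (U0_subset_boxLP.trans boxLP_subset_strip)).preimage toX.continuous

lemma Om0_subset : Om0 ⊆ box3 := by
  apply preimage_mono
  rintro _ ⟨x, hx, rfl⟩
  exact (Phi_mem_boxX ((U0_subset_boxLP.trans boxLP_subset_strip) hx)).2 (U0_subset_boxLP hx)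

lemma volume_Om0 : volume Om0 = ENNReal.ofReal pA := by
  unfold Om0
  rw [volume_preimage_toX, volume_image_Phi isOpen_U0 (U0_subset_boxLP.trans boxLP_subset_strip), muLP_U0]

lemma upper {Ω : Set E3} (h : Om0 ⊆ Ω) : firstEigenvalue Ω ≤ (π / (2 * ph)) ^ 2 + 100 * π ^ 2 + 1 / 100 := by
  have hpi := Real.pi_pos
  obtain ⟨V, h1, h2, h3, h4, h5, h6⟩ := competitor (ε := 1 / 100) (by norm_num)
  obtain ⟨k1, k2, k3, k4, k5, k6⟩ := push h1 h2 (h3.trans (U0_subset_boxLP.trans boxLP_subset_strip))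
  set v := slitX.indicator (V ∘ Psi) with hv
  have hc : ContDiff ℝ ∞ (v ∘ toX) := k1.comp toX.contDiff
  have hcs : HasCompactSupport (v ∘ toX) := k2.comp_homeomorph toX.toHomeomorph
  have htest : Pool.Agent.H66.EX.IsTest Ω (v ∘ toX) := by
    refine ⟨hc, hcs, ?_⟩
    intro x hx
    apply h
    have := k3 (tsupport_comp_subset_preimage v toX.continuous hx)
    obtain ⟨y, hy, hyx⟩ := this
    exact ⟨y, h3 hy, hyx⟩
  have key := Pool.Agent.H66.EX.lam1_test htest
  rw [← firstEigenvalue_eq] at key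
  obtain ⟨e1, e2⟩ := energy_toX hc
  have e : (v ∘ toX) ∘ toX.symm = v := by ext x; simp
  rw [e] at e1 e2
  have hm : ENNReal.ofReal (∫ x, ((v ∘ toX) x) ^ 2) = massLP V := by
    rw [ofReal_integral_eq_lintegral_ofReal htest.integrable_sq (Eventually.of_forall fun x => sq_nonneg _), e2, k6]
  have hen : ENNReal.ofReal (∫ x, ‖fderiv ℝ (v ∘ toX) x‖ ^ 2) = enLP V := by
    rw [ofReal_integral_eq_lintegral_ofReal htest.integrable_energy (Eventually.of_forall fun x => sq_nonneg _), e1, k5]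
  have hI0 : 0 ≤ ∫ x, ((v ∘ toX) x) ^ 2 := integral_nonneg fun x => sq_nonneg _
  have hIpos : 0 < ∫ x, ((v ∘ toX) x) ^ 2 := by
    rcases hI0.eq_or_lt with h0 | h0
    · rw [← h0, ENNReal.ofReal_zero] at hm
      exact absurd hm.symm h4
    · exact h0
  have h7 : ∫ x, ‖fderiv ℝ (v ∘ toX) x‖ ^ 2 ≤ ((π / (2 * ph)) ^ 2 + 100 * π ^ 2 + 1 / 100) * ∫ x, ((v ∘ toX) x) ^ 2 := by
    rw [← hm, ← hen, ← ENNReal.ofReal_mul (by positivity)] at h6
    exact (ENNReal.ofReal_le_ofReal_iff (by positivity)).1 h6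
  exact le_of_mul_le_mul_right (key.trans h7) hIpos

/-- **Negative answer to Q2 (in dimension three).** There are a bounded open starshaped box `D ⊆ ℝ³` and a volume
`0 < A < |D|` such that the problem `min { λ₁(Ω) : Ω ⊆ D open, |Ω| = A }` has a solution, and no solution agrees,
up to a Lebesgue null set, with an open starshaped set. -/
theorem result : ∃ (D : Set (EuclideanSpace ℝ (Fin 3))) (A : ℝ),
    IsOpen D ∧ Bornology.IsBounded D ∧ IsStarShaped D ∧ 0 < A ∧ ENNReal.ofReal A < volume D ∧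
    (∃ Ω : Set (EuclideanSpace ℝ (Fin 3)), Minimizes D A Ω) ∧
    ∀ Ω : Set (EuclideanSpace ℝ (Fin 3)), Minimizes D A Ω →
      ¬ ∃ S : Set (EuclideanSpace ℝ (Fin 3)), IsOpen S ∧ IsStarShaped S ∧ S =ᵐ[volume] Ω := by
  have hfin : volume box3 ≠ ⊤ := isBounded_box3.measure_lt_top.ne
  set A₁ : ℝ := min (2 * pA) (volume box3).toReal with hA₁
  have hlt : pA < A₁ := by
    apply lt_min
    · have := pA_pos; linarith
    · exact (ENNReal.ofReal_lt_iff_lt_toReal pA_pos.le hfin).1 lt_volume_box3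
  have hex := Pool.Agent.H66.EX.exists_open_minimizer (n := 3) (by norm_num) le_rfl isOpen_box3 isBounded_box3
  obtain ⟨A, hA, hmin⟩ := Measure.exists_mem_of_measure_ne_zero_of_ae (μ := volume) (s := Ioo pA A₁)
    (by rw [Real.volume_Ioo]; simpa using hlt) (ae_restrict_of_ae hex)
  have hA0 : 0 < A := pA_pos.trans hA.1
  have hAD : ENNReal.ofReal A < volume box3 := by
    rw [ENNReal.ofReal_lt_iff_lt_toReal hA0.le hfin]
    exact hA.2.trans_le (min_le_right _ _)
  obtain ⟨Ω, h1, h2, h3, h4⟩ := hmin hA0 hAD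
  refine ⟨box3, A, isOpen_box3, isBounded_box3, isStarShaped_box3, hA0, hAD, ⟨Ω, h1, h2, h3, ?_⟩, ?_⟩
  · intro Ω' k1 k2 k3
    rw [firstEigenvalue_eq, firstEigenvalue_eq]
    exact h4 Ω' k1 k2 k3
  · rintro Ω₁ hΩ₁ ⟨S, hS, hst, hae⟩
    obtain ⟨R, hR⟩ := isBounded_box3.exists_norm_le
    obtain ⟨Ω₂, m1, m2, m3, m4⟩ := Pool.Agent.H66.EX.exists_open_volume (by norm_num : 0 < 3) isOpen_box3 (abs_nonneg R)
      (fun x hx => (hR x hx).trans (le_abs_self R)) isOpen_Om0 Om0_subset hA0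
      (by rw [volume_Om0]; exact ENNReal.ofReal_le_ofReal hA.1.le) hAD
    have a1 := upper m2
    have a2 := hΩ₁.le Ω₂ m1 m3 m4
    have hle : volume Ω₁ ≤ ENNReal.ofReal (2 * pA) := by
      rw [hΩ₁.volume_eq]
      exact ENNReal.ofReal_le_ofReal (hA.2.le.trans (min_le_left _ _))
    have hne : volume Ω₁ ≠ 0 := by
      rw [hΩ₁.volume_eq]; simpa using hA0
    have a3 := lower hΩ₁.isOpen hΩ₁.subset hne hle hS hst hae
    linarith

end Pool.Agent.H63.SLBOld
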