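import Pool.Agent.H63.SLB.Defs
import Pool.Agent.H63.SLB.Old

/-!
# From `ℝ³` to all Euclidean spaces of dimension three
-/

set_option autoImplicit false

open MeasureTheory Set
open scoped ContDiff

namespace SLB

section

variable {E F : Type} [NormedAddCommGroup E] [InnerProductSpace ℝ E] [NormedAddCommGroup F]
  [InnerProductSpace ℝ F] (e : E ≃ₗᵢ[ℝ] F)

theorem star {S : Set F} (h : IsStarShaped S) : IsStarShaped (e ⁻¹' S) := by
  obtain ⟨x₀, hx₀, hx⟩ := h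
  refine ⟨e.symm x₀, by simpa using hx₀, ?_⟩
  intro x hxS
  have h1 := hx (e x) hxS
  rintro y ⟨a, b, ha, hb, hab, rfl⟩
  apply h1
  refine ⟨a, b, ha, hb, hab, ?_⟩
  simp

theorem test {Ω : Set F} {φ : F → ℝ} (h : IsTestFn Ω φ) : IsTestFn (e ⁻¹' Ω) (φ ∘ e) := by
  obtain ⟨h1, h2, h3⟩ := h
  refine ⟨h1.comp e.contDiff, h2.comp_homeomorph e.toHomeomorph, ?_⟩
  intro x hx
  exact h3 (tsupport_comp_subset_preimage φ e.continuous hx)

theorem grad (φ : F → ℝ) (hφ : ContDiff ℝ ∞ φ) (x : E) :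
    ‖fderiv ℝ (φ ∘ e) x‖ = ‖fderiv ℝ φ (e x)‖ := by
  have hd : DifferentiableAt ℝ φ (e x) := (hφ.differentiable (by simp)).differentiableAt
  have h1 : fderiv ℝ (φ ∘ e) x = (fderiv ℝ φ (e x)).comp
      (e.toContinuousLinearEquiv : E →L[ℝ] F) := by
    have h2 : HasFDerivAt (fun y => e y) (e.toContinuousLinearEquiv : E →L[ℝ] F) x :=
      e.toContinuousLinearEquiv.hasFDerivAt
    exact (hd.hasFDerivAt.comp x h2).fderiv
  rw [h1]
  exact (fderiv ℝ φ (e x)).opNorm_comp_linearIsometryEquiv e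

variable [FiniteDimensional ℝ E] [MeasurableSpace E] [BorelSpace E] [FiniteDimensional ℝ F]
  [MeasurableSpace F] [BorelSpace F]

theorem vol (S : Set F) : volume (e ⁻¹' S) = volume S := by
  have h : MeasurePreserving e.toHomeomorph.toMeasurableEquiv volume volume := e.measurePreserving
  exact h.measure_preimage_equiv S

theorem integral_e (f : F → ℝ) : ∫ x, f (e x) = ∫ y, f y :=
  e.measurePreserving.integral_comp e.toHomeomorph.measurableEmbedding f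

theorem eig_sub (Ω : Set F) :
    {r : ℝ | ∃ φ : F → ℝ, IsTestFn Ω φ ∧ ∫ x, (φ x) ^ 2 = 1 ∧ r = ∫ x, ‖fderiv ℝ φ x‖ ^ 2} ⊆
    {r : ℝ | ∃ φ : E → ℝ, IsTestFn (e ⁻¹' Ω) φ ∧ ∫ x, (φ x) ^ 2 = 1 ∧
      r = ∫ x, ‖fderiv ℝ φ x‖ ^ 2} := by
  rintro r ⟨φ, h1, h2, rfl⟩
  refine ⟨φ ∘ e, test e h1, ?_, ?_⟩
  · rw [← h2]
    exact integral_e e (fun y => φ y ^ 2)
  · simp only [grad e φ h1.1]
    exact (integral_e e (fun y => ‖fderiv ℝ φ y‖ ^ 2)).symm

theorem eig (Ω : Set F) : firstEigenvalue (e ⁻¹' Ω) = firstEigenvalue Ω := by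
  unfold firstEigenvalue
  congr 1
  apply Subset.antisymm
  · have h := eig_sub e.symm (e ⁻¹' Ω)
    have e1 : e.symm ⁻¹' (e ⁻¹' Ω) = Ω := by ext x; simp
    rw [e1] at h
    exact h
  · exact eig_sub e Ω

theorem mini {D Ω : Set F} {A : ℝ} (h : Minimizes D A Ω) : Minimizes (e ⁻¹' D) A (e ⁻¹' Ω) := by
  obtain ⟨h1, h2, h3, h4⟩ := h
  refine ⟨h1.preimage e.continuous, preimage_mono h2, by rw [vol e, h3], ?_⟩
  intro Ω' k1 k2 k3
  rw [eig e, ← eig e.symm Ω']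
  refine h4 _ (k1.preimage e.symm.continuous) ?_ (by rw [vol e.symm, k3])
  intro x hx
  have := k2 hx
  simpa using this

end

theorem main (E : Type) [NormedAddCommGroup E] [InnerProductSpace ℝ E] [FiniteDimensional ℝ E]
    [MeasurableSpace E] [BorelSpace E] (hE : Module.finrank ℝ E = 3) :
    ∃ (D : Set E) (A : ℝ), IsOpen D ∧ Bornology.IsBounded D ∧ IsStarShaped D ∧
      0 < A ∧ ENNReal.ofReal A < volume D ∧ (∃ Ω, Minimizes D A Ω) ∧
      ∀ Ω, Minimizes D A Ω → ¬ ∃ S, IsOpen S ∧ IsStarShaped S ∧ S =ᵐ[volume] Ω := by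
  obtain ⟨D, A, h1, h2, h3, h4, h5, ⟨Ω, h6⟩, h7⟩ := Pool.Agent.H63.SLBOld.result
  let e : E ≃ₗᵢ[ℝ] EuclideanSpace ℝ (Fin 3) :=
    ((stdOrthonormalBasis ℝ E).reindex (finCongr hE)).repr
  have hD : e.symm ⁻¹' (e ⁻¹' D) = D := by ext x; simp
  have hold : ∀ Ω : Set (EuclideanSpace ℝ (Fin 3)), Pool.Agent.H63.SLBOld.Minimizes D A Ω ↔
      Minimizes D A Ω := by
    intro Ω
    constructor
    · rintro ⟨a, b, c, d⟩
      exact ⟨a, b, c, d⟩
    · rintro ⟨a, b, c, d⟩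
      exact ⟨a, b, c, d⟩
  refine ⟨e ⁻¹' D, A, h1.preimage e.continuous, ?_, star e h3, h4, by rw [vol e]; exact h5,
    ⟨e ⁻¹' Ω, mini e ((hold Ω).1 h6)⟩, ?_⟩
  · have h : e ⁻¹' D = e.symm '' D := by
      ext x
      constructor
      · intro hx
        exact ⟨e x, hx, by simp⟩
      · rintro ⟨y, hy, rfl⟩
        simpa using hy
    rw [h]
    exact e.symm.lipschitz.isBounded_image h2
  · rintro Ω' hΩ' ⟨S, k1, k2, k3⟩
    have hm := mini e.symm hΩ'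
    rw [hD] at hm
    exact h7 _ ((hold _).2 hm) ⟨e.symm ⁻¹' S, k1.preimage e.symm.continuous, star e.symm k2,
      e.symm.measurePreserving.quasiMeasurePreserving.preimage_ae_eq k3⟩

end SLB
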