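import Mathlib

/-!
# Definitions: first Dirichlet eigenvalue, the shape optimization problem in a box, starshaped sets
-/

set_option autoImplicit false

open MeasureTheory
open scoped ContDiff

namespace SLB

variable {E : Type} [NormedAddCommGroup E] [InnerProductSpace ℝ E]

/-- `φ` is a test function on `Ω`: smooth, with compact support contained in `Ω`. -/
def IsTestFn (Ω : Set E) (φ : E → ℝ) : Prop :=
  ContDiff ℝ ∞ φ ∧ HasCompactSupport φ ∧ tsupport φ ⊆ Ω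

/-- `S` is starshaped with respect to one of its points. -/
def IsStarShaped (S : Set E) : Prop :=
  ∃ x₀ ∈ S, ∀ x ∈ S, segment ℝ x₀ x ⊆ S

variable [FiniteDimensional ℝ E] [MeasurableSpace E] [BorelSpace E]

/-- First eigenvalue of the Dirichlet Laplacian on `Ω`: the infimum of `∫ |∇φ|²` over test functions
`φ` on `Ω` with `∫ φ² = 1`. -/
noncomputable def firstEigenvalue (Ω : Set E) : ℝ :=
  sInf {r : ℝ | ∃ φ : E → ℝ, IsTestFn Ω φ ∧ ∫ x, (φ x) ^ 2 = 1 ∧ r = ∫ x, ‖fderiv ℝ φ x‖ ^ 2}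

/-- `Ω` solves `min { λ₁(Ω) : Ω ⊆ D open, |Ω| = A }`. -/
def Minimizes (D : Set E) (A : ℝ) (Ω : Set E) : Prop :=
  IsOpen Ω ∧ Ω ⊆ D ∧ volume Ω = ENNReal.ofReal A ∧
    ∀ Ω' : Set E, IsOpen Ω' → Ω' ⊆ D → volume Ω' = ENNReal.ofReal A →
      firstEigenvalue Ω ≤ firstEigenvalue Ω'

end SLB
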